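import Mathlib
import Pool.Agent.Q187.Sim.Main

set_option autoImplicit false

/-!
# The local dimension of a dimension spectrum need not be continuous

`Pool.Agent.Q187.Sim.CIFS E` is the structure of conformal iterated function systems (Mauldin and
Urbański) on the line with alphabet `E`, `CIFS.J S F` is the limit set of the subsystem `F` and
`locDim F x` is the local Hausdorff dimension. We construct an infinite system of similarities of
the unit interval whose dimension spectrum `DS S` has local dimension `1` at `1/2` and local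
dimension `0` at the points of a sequence in `DS S` which decreases to `1/2`.
-/

open Filter Topology Set Pool.Agent.Q187.Sim

namespace Pool.Agent.Results.MP_906def_an.Discontinuous

/-- the dimension spectrum, all subsets of the alphabet being allowed -/
def DS {E : Type} (S : CIFS E) : Set ℝ := {t | ∃ F : Set E, t = (dimH (S.J F)).toReal}

lemma DS_eq : DS BS.toCIFS ⊆ Spec ∪ {0} := by
  rintro t ⟨F, rfl⟩
  rcases F.eq_empty_or_nonempty with h | h
  · right
    rw [h, mem_singleton_iff]
    have : BS.toCIFS.J (∅ : Set Ed) = ∅ := by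
      ext x
      simp [CIFS.J]
    rw [this, dimH_empty]
    rfl
  · left
    exact ⟨F, h, rfl⟩

lemma DS_sup : Spec ⊆ DS BS.toCIFS := by
  rintro t ⟨F, _, h⟩
  exact ⟨F, h⟩

/-- There is a conformal iterated function system on the line with a countable alphabet with at
least two elements such that the local dimension of its dimension spectrum `F` is not continuous
on `F`: there are points `x` and `x n → x` of `F` with local dimension `1` at `x` and `0` at every
`x n`. -/
theorem result : ∃ (E : Type) (_ : Countable E) (_ : Nontrivial E) (S : CIFS E),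
    ¬ ContinuousOn (locDim (DS S)) (DS S) ∧
    ∃ x ∈ DS S, locDim (DS S) x = 1 ∧ ∃ u : ℕ → ℝ, (∀ n, u n ∈ DS S ∧ x < u n ∧
      locDim (DS S) (u n) = 0) ∧ Tendsto u atTop (𝓝 x) := by
  have hlim : Tendsto (fun K => dd (FK K)) atTop (𝓝 (1 / 2)) := by
    rw [Metric.tendsto_atTop']
    intro ε hε
    obtain ⟨N, hN⟩ := eventually_atTop.1 (dd_FK_le (half_pos hε))
    refine ⟨N, fun K hK => ?_⟩
    have h1 := hN K hK.le
    have h2 := half_lt_dd K
    rw [Real.dist_eq, abs_lt]
    constructor <;> linarith
  have hmem : (1 / 2 : ℝ) ∈ DS BS.toCIFS :=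
    DS_sup (mem_Spec_of_le (by norm_num) (le_refl _))
  have hz : ∀ n, locDim (DS BS.toCIFS) (dd (FK n)) = 0 := fun n => locDim_zero DS_eq (half_lt_dd n)
  have hmemK : ∀ n, dd (FK n) ∈ DS BS.toCIFS := fun n => DS_sup (dd_FK_mem n)
  refine ⟨Ed, inferInstance, ⟨⟨0, ⟨0, by unfold NN; positivity⟩⟩, ⟨1, ⟨0, by unfold NN; positivity⟩⟩,
    fun h => by simpa using congrArg Sigma.fst h⟩, BS.toCIFS, ?_, 1 / 2, hmem, locDim_one DS_sup,
    fun K => dd (FK K), fun n => ⟨hmemK n, half_lt_dd n, hz n⟩, hlim⟩
  intro hc
  have h1 := hc (1 / 2) hmem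
  have h2 : Tendsto (fun K => dd (FK K)) atTop (𝓝[DS BS.toCIFS] (1 / 2)) :=
    tendsto_nhdsWithin_iff.2 ⟨hlim, Eventually.of_forall hmemK⟩
  have h3 := h1.tendsto.comp h2
  rw [locDim_one DS_sup] at h3
  have h4 : (locDim (DS BS.toCIFS) ∘ fun K => dd (FK K)) = fun _ => 0 := funext hz
  rw [h4] at h3
  exact zero_ne_one (tendsto_nhds_unique tendsto_const_nhds h3)

end Pool.Agent.Results.MP_906def_an.Discontinuous
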